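import Pool.Agent.Work.MP_76dc41_al.H8.Fin4

/-!
# The index of the solvable radical and the average character degree

No classification of the finite simple groups is used.
-/

set_option autoImplicit false

namespace Pool.Agent.Work.MP_76dc41_al.Kept.AltFactors

open Pool.Agent.RadAlt

theorem result :
    -- the solvable radical `R` exists and `G / R` has no nontrivial solvable normal subgroup
    (∀ (G : Type) [Group G] [Finite G], (∃ R : Subgroup G, IsSolRad R) ∧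
      ∀ (R : Subgroup G) [R.Normal], IsSolRad R → TrivRad (G ⧸ R)) ∧
    -- simple factors `A_n`, `n ≥ 160`, and `PSL_n(q)`, `n ≥ 84`, arbitrary extension and radical
    (∀ (G : Type) [Group G] [Finite G] (N : Subgroup G) [N.Normal],
      TrivRad (G ⧸ N) → AltLinSocle 160 84 (G ⧸ N) → (Nat.card (G ⧸ N) : ℝ) ≤ acd G ^ 4) ∧
    -- simple factors `A_n` and `PSL_n(q)`, `n` large: exponent `3 + ε`
    (∀ ε : ℝ, 0 < ε → ∃ n₀ : ℕ, ∀ (G : Type) [Group G] [Finite G] (N : Subgroup G) [N.Normal],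
      TrivRad (G ⧸ N) → AltLinSocle n₀ n₀ (G ⧸ N) → (Nat.card (G ⧸ N) : ℝ) ≤ acd G ^ (3 + ε)) ∧
    -- alternating factors of large degree: exponent `2 + ε`
    (∀ ε : ℝ, 0 < ε → ∃ n₀ : ℕ, ∀ (G : Type) [Group G] [Finite G] (N : Subgroup G) [N.Normal],
      TrivRad (G ⧸ N) → AltSocle n₀ (G ⧸ N) → (Nat.card (G ⧸ N) : ℝ) ≤ acd G ^ (2 + ε)) ∧
    -- permutation quotients of degree `d`
    (∀ (G : Type) [Group G] [Finite G] (N : Subgroup G) [N.Normal] (d : ℕ)
      (f : G ⧸ N →* Equiv.Perm (Fin d)), Function.Injective f →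
      (Nat.card (G ⧸ N) : ℝ) ≤ 16 ^ (d - 1) * acd G ^ 2 ∧
      (256 ^ (d - 1) ≤ Nat.card (G ⧸ N) → (Nat.card (G ⧸ N) : ℝ) ≤ acd G ^ 4)) ∧
    -- the criterion on the simple factors
    (∀ (G : Type) [Group G] [Finite G] (N : Subgroup G) [N.Normal] (s t r : ℕ),
      TrivRad (G ⧸ N) → 0 < s → s ≤ 2 * t → 8 * r + 2 * t ≤ 3 * s →
      (∀ S : Subgroup (G ⧸ N), S.IsSubnormal → IsSimpleGroup S → ∀ Y : Subgroup S,
        (4 * Nat.card (MulAut S) * kcl Y) ^ s ≤ Nat.card S ^ (s + r) * Y.index ^ t) →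
      (Nat.card (G ⧸ N) : ℝ) ≤ acd G ^ 4) := by
  refine ⟨?_, ?_, ?_, ?_, ?_, ?_⟩
  · intro G _ _
    exact ⟨Pool.Agent.ACD8.exists_solrad, fun R _ h => Pool.Agent.ACD8.trivRad_quot R h.2.1 h.2.2⟩
  · intro G _ _ N _ hN hA
    have := Fintype.ofFinite G
    rw [acd_eq G]
    exact Pool.Agent.ACD8.crit4 N hN (s := 8) (t := 8) (r := 1) (by norm_num) (by norm_num)
      (by norm_num) (loc_altlin hA)
  · intro ε hε
    obtain ⟨n₀, h⟩ := altlin_eps ε hε
    refine ⟨n₀, ?_⟩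
    intro G _ _ N _ hN hA
    have := Fintype.ofFinite G
    rw [acd_eq G]
    exact h G N hN hA
  · intro ε hε
    obtain ⟨n₀, h⟩ := Pool.Agent.ACD8.alt_eps ε hε
    refine ⟨n₀, ?_⟩
    intro G _ _ N _ hN hA
    have := Fintype.ofFinite G
    rw [acd_eq G]
    exact h G N hN hA
  · intro G _ _ N _ d f hf
    have := Fintype.ofFinite G
    rw [acd_eq G]
    have h1 := Pool.Agent.ACD8.perm_quot N f hf
    refine ⟨h1, ?_⟩
    intro h2
    have h3 : (256 : ℝ) ^ (d - 1) ≤ (Nat.card (G ⧸ N) : ℝ) := by exact_mod_cast h2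
    have hh : (0 : ℝ) < (Nat.card (G ⧸ N) : ℝ) := by exact_mod_cast Nat.card_pos (α := G ⧸ N)
    have ha := Pool.Agent.ACD8.acd_nonneg G
    have h4 : (Nat.card (G ⧸ N) : ℝ) * (Nat.card (G ⧸ N) : ℝ) ≤
        Pool.Agent.ACD8.acd G ^ 4 * (Nat.card (G ⧸ N) : ℝ) := by
      calc (Nat.card (G ⧸ N) : ℝ) * (Nat.card (G ⧸ N) : ℝ)
          ≤ (16 ^ (d - 1) * Pool.Agent.ACD8.acd G ^ 2) *
            (16 ^ (d - 1) * Pool.Agent.ACD8.acd G ^ 2) := by gcongr
        _ = 256 ^ (d - 1) * Pool.Agent.ACD8.acd G ^ 4 := by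
          have : (256 : ℝ) ^ (d - 1) = 16 ^ (d - 1) * 16 ^ (d - 1) := by
            rw [← mul_pow]; norm_num
          rw [this]
          ring
        _ ≤ (Nat.card (G ⧸ N) : ℝ) * Pool.Agent.ACD8.acd G ^ 4 := by gcongr
        _ = _ := by ring
    exact le_of_mul_le_mul_right h4 hh
  · intro G _ _ N _ s t r hN hs hst hr hS
    have := Fintype.ofFinite G
    rw [acd_eq G]
    exact Pool.Agent.ACD8.crit4 N hN hs hst hr hS

end Pool.Agent.Work.MP_76dc41_al.Kept.AltFactors
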